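import Pool.Agent.Helper73.RF.GoalsC

/-!
# Packet NSY of project RF (MP_c98eff_gt): the curvature operator is symmetric
-/

open Finset

namespace Pool.Agent.Helper83.RF

open Pool.Agent.Helper73.RF

theorem nsy (hF : FraStmt) : NsyStmt := by
  intro 𝒜 _ _ E A θ hfr hind
  obtain ⟨h1, h2, h3, h4, h5, h6, h7⟩ := hF 𝒜 E A θ hfr
  obtain ⟨D, hD⟩ : ∃ D : Fin 3 → Derivation ℝ 𝒜 𝒜, ∀ a, D a = ∑ i, A a i • E i :=
    ⟨fun a => ∑ i, A a i • E i, fun _ => rfl⟩
  have hDF : ∀ a f, FR.Fd E A a f = D a f := by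
    intro a f
    rw [hD]
    simp [FR.Fd, Fin.sum_univ_three]
  simp only [hDF] at h1
  obtain ⟨w, hw⟩ : ∃ w : Fin 3 → Fin 3 → 𝒜, ∀ a k, FR.om E A θ a k = w a k := ⟨_, fun _ _ => rfl⟩
  obtain ⟨C, hC⟩ : ∃ C : Fin 3 → Fin 3 → Fin 3 → 𝒜, ∀ a b c, FR.C E A θ a b c = C a b c :=
    ⟨_, fun _ _ _ => rfl⟩
  simp only [hC] at h1 h2
  have hCw : ∀ a b c, C a b c = (∑ k, eps k b c • w a k) - ∑ k, eps k a c • w b k := by
    intro a b c
    rw [← hC, h5, h4, h4]
    simp only [hw]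
  have K : ∀ a b c f, D a (D b (D c f) - D c (D b f)) - (D b (D c (D a f)) - D c (D b (D a f))) =
      ∑ g, (D a (C b c g) + ∑ e, C b c e * C a e g) * D g f := by
    intro a b c f
    rw [h1 b c f, h1 b c (D a f), map_sum, ← Finset.sum_sub_distrib]
    have e1 : ∀ e, D a (C b c e * D e f) - C b c e * D e (D a f) =
        D a (C b c e) * D e f + C b c e * ∑ g, C a e g * D g f := by
      intro e
      rw [← h1 a e f, Derivation.leibniz, smul_eq_mul, smul_eq_mul]
      ring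
    simp only [e1]
    simp only [Fin.sum_univ_three]
    ring
  have J : ∀ g, (D 0 (C 1 2 g) + ∑ e, C 1 2 e * C 0 e g) + (D 1 (C 2 0 g) + ∑ e, C 2 0 e * C 1 e g) +
      (D 2 (C 0 1 g) + ∑ e, C 0 1 e * C 2 e g) = 0 := by
    obtain ⟨J, hJ⟩ : ∃ J : Fin 3 → 𝒜, ∀ g, J g = (D 0 (C 1 2 g) + ∑ e, C 1 2 e * C 0 e g) +
      (D 1 (C 2 0 g) + ∑ e, C 2 0 e * C 1 e g) + (D 2 (C 0 1 g) + ∑ e, C 0 1 e * C 2 e g) :=
      ⟨_, fun _ => rfl⟩
    have hJ0 : ∀ f, ∑ g, J g * D g f = 0 := by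
      intro f
      have k0 := K 0 1 2 f
      have k1 := K 1 2 0 f
      have k2 := K 2 0 1 f
      have e : ∑ g, J g * D g f =
          ∑ g, (D 0 (C 1 2 g) + ∑ e, C 1 2 e * C 0 e g) * D g f +
          ∑ g, (D 1 (C 2 0 g) + ∑ e, C 2 0 e * C 1 e g) * D g f +
          ∑ g, (D 2 (C 0 1 g) + ∑ e, C 0 1 e * C 2 e g) * D g f := by
        rw [← Finset.sum_add_distrib, ← Finset.sum_add_distrib]
        refine Finset.sum_congr rfl fun g _ => ?_
        rw [hJ]
        ring
      rw [e, ← k0, ← k1, ← k2]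
      simp only [map_sub]
      ring
    have hJ1 : ∀ i, ∑ g, J g * A g i = 0 := by
      refine hind _ fun f => ?_
      rw [← hJ0 f]
      simp only [hD]
      simp only [Fin.sum_univ_three, Derivation.coe_add, Derivation.coe_smul, Pi.add_apply,
        Pi.smul_apply, smul_eq_mul]
      ring
    intro g
    rw [← hJ g]
    calc J g = ∑ h, J h * (if h = g then 1 else 0) := by simp
      _ = ∑ h, J h * ∑ i, A h i * θ i g := by
          refine Finset.sum_congr rfl fun h _ => ?_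
          rw [hfr.At]
      _ = ∑ i, (∑ h, J h * A h i) * θ i g := by
          simp only [Fin.sum_univ_three]
          ring
      _ = 0 := by
          simp only [hJ1]
          simp
  have hO : ∀ c d k, FR.Om E A θ c d k = D c (w d k) - D d (w c k)
      + (∑ l, ∑ m, eps l m k • (w c l * w d m)) - ∑ e, C c d e * w e k := by
    intro c d k
    simp only [FR.Om, hDF, hw, hC]
  have N0 : ∀ k, FR.N E A θ 0 k = -FR.Om E A θ 1 2 k := by
    intro k
    rw [h6]
    simp [Fin.sum_univ_three, eps]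
  have N1 : ∀ k, FR.N E A θ 1 k = -FR.Om E A θ 2 0 k := by
    intro k
    rw [h6]
    simp [Fin.sum_univ_three, eps]
  have N2 : ∀ k, FR.N E A θ 2 k = -FR.Om E A θ 0 1 k := by
    intro k
    rw [h6]
    simp [Fin.sum_univ_three, eps]
  have J0 := J 0
  have J1 := J 1
  have J2 := J 2
  simp only [hCw] at J0 J1 J2
  simp [Fin.sum_univ_three, eps] at J0 J1 J2
  have s01 : FR.N E A θ 0 1 = FR.N E A θ 1 0 := by
    rw [N0, N1, hO, hO]
    simp only [hCw]
    simp [Fin.sum_univ_three, eps]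
    linear_combination J2
  have s02 : FR.N E A θ 0 2 = FR.N E A θ 2 0 := by
    rw [N0, N2, hO, hO]
    simp only [hCw]
    simp [Fin.sum_univ_three, eps]
    linear_combination -J1
  have s12 : FR.N E A θ 1 2 = FR.N E A θ 2 1 := by
    rw [N1, N2, hO, hO]
    simp only [hCw]
    simp [Fin.sum_univ_three, eps]
    linear_combination J0
  intro l k
  fin_cases l <;> fin_cases k
  · rfl
  · exact s01
  · exact s02
  · exact s01.symm
  · rfl
  · exact s12
  · exact s02.symm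
  · exact s12.symm
  · rfl

end Pool.Agent.Helper83.RF
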