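import Pool.Agent.Helper73.RF.GoalsF

/-!
# Project RF, packet CON: the maximum principle results in Core language
-/

set_option autoImplicit false

open Finset Pool.Agent.Helper47.RF Pool.Agent.Helper73.RF

namespace Pool.Agent.Helper83.RF

theorem frm_of_flow {I : Set ℝ} {A θ : ℝ → MF} (h : FFlow I A θ) {t : ℝ} (ht : t ∈ I) :
    Frm (A t) (θ t) :=
  ⟨h.inv t ht, fun a i => (h.flA a i).fam.sm t ht, fun i a => (h.flt i a).fam.sm t ht⟩

theorem E_hom {f : HH → ℝ} (hf : Hom0 f) (i : Fin 3) {r : ℝ} (hr : 0 < r) (x : HH) :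
    Pool.Agent.Helper47.RF.E i f (r • x) = Pool.Agent.Helper47.RF.E i f x := by
  have h1 : fderiv ℝ (fun y => f (r • y)) x = r • fderiv ℝ f (r • x) := by
    exact fderiv_comp_smul (f := f) (x := x) r
  have h2 : (fun y => f (r • y)) = f := funext fun y => hf r y hr
  rw [h2] at h1
  show fderiv ℝ f (r • x) ((r • x) * qe i) = fderiv ℝ f x (x * qe i)
  rw [h1, smul_mul_assoc, map_smul]
  rfl

/-- the unit vector in the direction of `x` -/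
noncomputable def uv (x : HH) (hx : x ≠ 0) : Metric.sphere (0 : HH) 1 :=
  ⟨(‖x‖⁻¹ : ℝ) • x, by
    rw [mem_sphere_zero_iff_norm, norm_smul, norm_inv, norm_norm,
      inv_mul_cancel₀ (norm_ne_zero_iff.2 hx)]⟩

theorem uv_coe (x : HH) (hx : x ≠ 0) : ((uv x hx : Metric.sphere (0 : HH) 1) : HH) = (‖x‖⁻¹ : ℝ) • x :=
  rfl

section hom

variable (FRN : FrnStmt) {A θ : MF} (hF : Frm A θ)

include FRN hF

theorem Nc_hom {r : ℝ} (hr : 0 < r) (x : HH) : Nc A θ (r • x) = Nc A θ x := by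
  funext l k
  exact ((FRN A θ hF).2.2.1 l k).hom r x hr

theorem sC_hom : Hom0 (sC A θ) := by
  intro r x hr
  unfold sC
  rw [Nc_hom FRN hF hr]

theorem qC_hom : Hom0 (qC A θ) := by
  intro r x hr
  unfold qC
  rw [Nc_hom FRN hF hr, sC_hom FRN hF r x hr]

theorem gg_hom {r : ℝ} (hr : 0 < r) (x : HH) :
    ggC (gOf θ) (sC A θ) (sC A θ) (r • x) = ggC (gOf θ) (sC A θ) (sC A θ) x := by
  unfold ggC
  have hg : gOf θ (r • x) = gOf θ x := by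
    ext i j
    exact ((FRN A θ hF).1.sm i j).hom r x hr
  have hE : ∀ i, Pool.Agent.Helper47.RF.E i (sC A θ) (r • x)
      = Pool.Agent.Helper47.RF.E i (sC A θ) x := fun i => E_hom (sC_hom FRN hF) i hr x
  rw [hg]
  simp only [hE]

theorem pin_hom {r κ : ℝ} (hr : 0 < r) (x : HH) (h : PinC κ A θ (r • x)) : PinC κ A θ x := by
  intro n hn
  have := h n hn
  rw [sC_hom FRN hF r x hr, Nc_hom FRN hF hr] at this
  exact this

end hom

theorem rotf_one (i a : Fin 3) : rotf (1 : HH) i a = if i = a then 1 else 0 := by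
  rw [rotf_formula]
  have e0 : (1 : HH).re = 1 := rfl
  have e1 : (1 : HH).imI = 0 := rfl
  have e2 : (1 : HH).imJ = 0 := rfl
  have e3 : (1 : HH).imK = 0 := rfl
  rw [e0, e1, e2, e3]
  fin_cases i <;> fin_cases a <;> simp

/-- a rotation with prescribed first row -/
theorem exists_row (D5 : D5Stmt) {T : ℝ} (hT : 0 < T) (n : Fin 3 → ℝ) (hn : ∑ i, n i ^ 2 = 1) :
    ∃ q : Metric.sphere (0 : HH) 1, ∀ a, rotf q 0 a = n a := by
  obtain ⟨z', hz'⟩ := D5 T ((⟨1, by simp⟩, ⟨1, by simp⟩) : ZZ) n hn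
  have ht : T / 2 ∈ Set.Ioo 0 T := ⟨by linarith, by linarith⟩
  refine ⟨z'.2, fun a => ?_⟩
  have h := (hz' ⟨T / 2, ht⟩).2 a
  have h1 : (baC T).ev z' ⟨T / 2, ht⟩ ((baC T).R 0 a) = rotf z'.2 0 a := rfl
  have h2 : ∀ i, (baC T).ev ((⟨1, by simp⟩, ⟨1, by simp⟩) : ZZ) ⟨T / 2, ht⟩ ((baC T).R i a)
      = rotf (1 : HH) i a := fun i => rfl
  rw [h1] at h
  rw [h]
  simp only [h2, rotf_one]
  simp

theorem con (FJS : FjsStmt) (FLB : FlbStmt) (NR0 : Nr0Stmt) (FRN : FrnStmt) (D5 : D5Stmt)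
    (P1 : P1Stmt) (P2 : P2Stmt) (P3C : P3cStmt) (S2 : S2Stmt) (S3 : S3Stmt) (PQ : PqStmt)
    (BIA : BiaStmt) : ConStmt := by
  intro T κ s0 A θ hT hκ hs0 hfl hin
  have hsub : Set.Ioo 0 T ⊆ Set.Ico 0 T := Set.Ioo_subset_Ico_self
  obtain ⟨hA, ht, -⟩ := FJS T _ A θ hT hsub hfl
  obtain ⟨hFull, hRF, hdic, -⟩ := FLB T _ A θ hT hsub hfl hA ht
  obtain ⟨hbdM, hbdg, hini1, hini2, -, -⟩ := NR0 T A θ hT hfl hA ht
  set F := flB hA ht with hFdef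
  have hM : ∀ i j, F.Bd0 (F.M i j) := fun i j => hbdM [] i j
  have hi1 : F.Ini F.s s0 := hini1 s0 (fun x hx => (hin x hx).1)
  have hi2 : F.Ini (F.M 0 0 - κ • F.s) 0 := hini2 κ (fun x hx => (hin x hx).2)
  obtain ⟨hs, hPin⟩ := P1 T F hFull hRF κ s0 hκ hs0 hM hi1 hi2
  have hfrm : ∀ t, 0 < t → t < T → Frm (A t) (θ t) := fun t h0 h1 =>
    frm_of_flow hfl ⟨h0.le, h1⟩
  -- points of the bundle over `x`
  let pt : ∀ x : HH, x ≠ 0 → F.Z := fun x hx => ((uv x hx, ⟨1, by simp⟩) : ZZ)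
  have hr : ∀ x : HH, x ≠ 0 → 0 < ‖x‖⁻¹ := fun x hx => inv_pos.2 (norm_pos_iff.2 hx)
  have es : ∀ (x : HH) (hx : x ≠ 0) (t : ℝ) (h0 : 0 < t) (h1 : t < T),
      F.ev (pt x hx) ⟨t, h0, h1⟩ F.s = sC (A t) (θ t) x := by
    intro x hx t h0 h1
    rw [(hdic (pt x hx) ⟨t, h0, h1⟩ _ rfl).1]
    exact sC_hom FRN (hfrm t h0 h1) _ x (hr x hx)
  have eq : ∀ (x : HH) (hx : x ≠ 0) (t : ℝ) (h0 : 0 < t) (h1 : t < T),
      F.ev (pt x hx) ⟨t, h0, h1⟩ F.q = qC (A t) (θ t) x := by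
    intro x hx t h0 h1
    rw [(hdic (pt x hx) ⟨t, h0, h1⟩ _ rfl).2.1]
    exact qC_hom FRN (hfrm t h0 h1) _ x (hr x hx)
  have eg : ∀ (x : HH) (hx : x ≠ 0) (t : ℝ) (h0 : 0 < t) (h1 : t < T),
      F.ev (pt x hx) ⟨t, h0, h1⟩ (F.gg F.s F.s)
        = ggC (gOf (θ t)) (sC (A t) (θ t)) (sC (A t) (θ t)) x := by
    intro x hx t h0 h1
    rw [(hdic (pt x hx) ⟨t, h0, h1⟩ _ rfl).2.2.1]
    exact gg_hom FRN (hfrm t h0 h1) (hr x hx) x
  -- values at all points of the bundle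
  have es' : ∀ (z : F.Z) (t : TI T), F.ev z t F.s
      = sC (A t) (θ t) ((Prod.fst z : Metric.sphere (0 : HH) 1) : HH) := fun z t =>
    (hdic z t _ rfl).1
  have eq' : ∀ (z : F.Z) (t : TI T), F.ev z t F.q
      = qC (A t) (θ t) ((Prod.fst z : Metric.sphere (0 : HH) 1) : HH) := fun z t =>
    (hdic z t _ rfl).2.1
  have hne : ∀ z : F.Z, ((Prod.fst z : Metric.sphere (0 : HH) 1) : HH) ≠ 0 := fun z => sph_ne _
  have hs' : ∀ z t, 0 ≤ F.ev z t F.s := fun z t => hs0.le.trans (hs z t)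
  have hpq := PQ T F hFull κ hκ.le hPin hs'
  have hκ3 : κ ≤ 1 / 3 := by
    have z : F.Z := ((⟨1, by simp⟩, ⟨1, by simp⟩) : ZZ)
    have ht2 : T / 2 ∈ Set.Ioo 0 T := ⟨by linarith, by linarith⟩
    have h := (hpq z ⟨T / 2, ht2⟩).2.1
    have h2 := hs z ⟨T / 2, ht2⟩
    by_contra hc
    push Not at hc
    have : (1 - 3 * κ) * F.ev z ⟨T / 2, ht2⟩ F.s < 0 :=
      mul_neg_of_neg_of_pos (by linarith) (lt_of_lt_of_le hs0 h2)
    linarith
  have hσ0 : 0 < 3 * κ ^ 2 := by positivity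
  have hσ1 : 3 * κ ^ 2 ≤ 1 := by nlinarith
  refine ⟨?_, ?_, ?_, ?_, ?_⟩
  · intro t h0 h1 x hx
    rcases h0.eq_or_lt with h0 | h0
    · subst h0
      exact hin x hx
    · refine ⟨?_, ?_⟩
      · rw [← es x hx t h0 h1]
        exact hs _ _
      · refine pin_hom FRN (hfrm t h0 h1) (hr x hx) x ?_
        intro n hn
        obtain ⟨q, hq⟩ := exists_row D5 hT n hn
        have hp := hPin ((uv x hx, q) : ZZ) ⟨t, h0, h1⟩
        have hd := hdic ((uv x hx, q) : ZZ) ⟨t, h0, h1⟩ _ rfl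
        rw [hd.1, hd.2.2.2] at hp
        simp only [hq] at hp
        exact hp
  · intro t h0 h1 x hx
    have hb := (BIA T F hFull hRF (pt x hx) ⟨t, h0, h1⟩).2.2.2.2.2.1
    have hp := (hpq (pt x hx) ⟨t, h0, h1⟩).2.2.1
    have h1' := (hpq (pt x hx) ⟨t, h0, h1⟩).2.1
    have h2 := hs (pt x hx) ⟨t, h0, h1⟩
    rw [eq x hx t h0 h1] at hb hp
    rw [es x hx t h0 h1] at hp h1' h2
    refine ⟨hb, hp.trans ?_⟩
    have h3 : (1 - 3 * κ) * sC (A t) (θ t) x ≤ sC (A t) (θ t) x := by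
      nlinarith
    have h4 : ((1 - 3 * κ) * sC (A t) (θ t) x) ^ 2 ≤ sC (A t) (θ t) x ^ 2 :=
      pow_le_pow_left₀ h1' h3 2
    linarith
  · intro t Q h0 h1 hQ hY x hx
    have hP2 := P2 T F hFull hRF κ s0 hκ hs0 hM hs hPin
    have h := P3C T F hFull hRF κ s0 (3 * κ ^ 2) hκ hs0 hσ0 hσ1 hM hbdg hs hPin hP2
      ⟨t, h0, h1⟩ Q (fun z => by rw [es' z]; exact hQ _ (hne z)) hY (pt x hx)
    rw [eg x hx t h0 h1, eq x hx t h0 h1] at h
    exact h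
  · intro t1 m h0 h1 hm hlow
    have h := S2 T F hFull hRF ⟨t1, h0, h1⟩ m hm (fun z => by rw [es' z]; exact hlow _ (hne z))
    refine ⟨fun t h2 h3 x hx => ?_, h.2⟩
    have h4 := h.1 (pt x hx) ⟨t, lt_of_lt_of_le h0 h2, h3⟩ h2
    rw [es x hx t (lt_of_lt_of_le h0 h2) h3] at h4
    exact h4
  · intro t1 Q1 e h0 h1 hQ1 he hup hq hinf
    refine S3 T F hFull hRF ⟨t1, h0, h1⟩ Q1 e hQ1 he (fun z => by rw [es' z]; exact hup _ (hne z))
      (fun z t htt => ?_) (fun C t2 ht2 => ?_)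
    · rw [es' z t, eq' z t]
      exact hq t htt t.2.2 _ (hne z)
    · obtain ⟨t, x, h3, h4, h5, hx, h6⟩ := hinf C t2 ht2
      refine ⟨pt x hx, ⟨t, h3, h5⟩, h4, ?_⟩
      rw [es x hx t h3 h5]
      exact h6

end Pool.Agent.Helper83.RF
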