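import Pool.Agent.Helper73.RF.GoalsA

/-!
# Packet LIN of project RF (MP_c98eff_gt): linear algebra of symmetric real 3 x 3 matrices
-/

open Finset Matrix

namespace Pool.Agent.Helper83.RF

open Pool.Agent.Helper73.RF

theorem spec (A : Matrix (Fin 3) (Fin 3) ℝ) (hA : A.IsHermitian) :
    ∃ (O : Matrix (Fin 3) (Fin 3) ℝ) (l : Fin 3 → ℝ), Oᵀ * O = 1 ∧ O * Oᵀ = 1 ∧
      A = O * diagonal l * Oᵀ := by
  refine ⟨(hA.eigenvectorUnitary : Matrix (Fin 3) (Fin 3) ℝ), hA.eigenvalues, ?_, ?_, ?_⟩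
  · have h := Unitary.coe_star_mul_self hA.eigenvectorUnitary
    rw [star_eq_conjTranspose, conjTranspose_eq_transpose_of_trivial] at h
    exact h
  · have h := Unitary.coe_mul_star_self hA.eigenvectorUnitary
    rw [Unitary.coe_star, star_eq_conjTranspose, conjTranspose_eq_transpose_of_trivial] at h
    exact h
  · have h := hA.spectral_theorem
    rw [Unitary.conjStarAlgAut_apply, star_eq_conjTranspose,
      conjTranspose_eq_transpose_of_trivial] at h
    exact h

theorem real_part (a b c κ : ℝ) (hκ : 0 ≤ κ) (hs : 0 ≤ a + b + c)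
    (ha : κ * (a + b + c) ≤ a) (hb : κ * (a + b + c) ≤ b) (hc : κ * (a + b + c) ≤ c) :
    0 ≤ (1 - 3 * κ) * (a + b + c) ∧ a ^ 2 + b ^ 2 + c ^ 2 ≤ (a + b + c) ^ 2 ∧
      a ^ 2 + b ^ 2 + c ^ 2 - (1 / 3) * (a + b + c) ^ 2 ≤ (2 / 3) * ((1 - 3 * κ) * (a + b + c)) ^ 2 ∧
      6 * ((a - (1 / 3) * (a + b + c)) ^ 3 + (b - (1 / 3) * (a + b + c)) ^ 3 +
        (c - (1 / 3) * (a + b + c)) ^ 3) ^ 2 ≤
        (a ^ 2 + b ^ 2 + c ^ 2 - (1 / 3) * (a + b + c) ^ 2) ^ 3 := by
  have h0 : 0 ≤ κ * (a + b + c) := mul_nonneg hκ hs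
  have ha0 : 0 ≤ a := h0.trans ha
  have hb0 : 0 ≤ b := h0.trans hb
  have hc0 : 0 ≤ c := h0.trans hc
  refine ⟨by nlinarith, by nlinarith [mul_nonneg ha0 hb0, mul_nonneg hb0 hc0, mul_nonneg ha0 hc0],
    ?_, ?_⟩
  · have h1 := mul_nonneg (sub_nonneg.2 ha) (sub_nonneg.2 hb)
    have h2 := mul_nonneg (sub_nonneg.2 hb) (sub_nonneg.2 hc)
    have h3 := mul_nonneg (sub_nonneg.2 ha) (sub_nonneg.2 hc)
    nlinarith
  · have : (a ^ 2 + b ^ 2 + c ^ 2 - (1 / 3) * (a + b + c) ^ 2) ^ 3 -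
        6 * ((a - (1 / 3) * (a + b + c)) ^ 3 + (b - (1 / 3) * (a + b + c)) ^ 3 +
        (c - (1 / 3) * (a + b + c)) ^ 3) ^ 2 = 2 * ((a - b) * (b - c) * (c - a)) ^ 2 := by
      ring
    have h := sq_nonneg ((a - b) * (b - c) * (c - a))
    linarith

theorem tr2 (A : Matrix (Fin 3) (Fin 3) ℝ) : (A * A).trace = ∑ i, ∑ j, A i j * A j i := by
  simp [Matrix.trace, Matrix.mul_apply]

theorem tr3 (A : Matrix (Fin 3) (Fin 3) ℝ) :
    (A * A * A).trace = ∑ i, ∑ j, ∑ k, A i j * A j k * A k i := by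
  simp only [Matrix.trace, Matrix.mul_apply, Matrix.diag_apply, Finset.sum_mul]
  refine Finset.sum_congr rfl fun i _ => ?_
  rw [Finset.sum_comm]

theorem lin : LinStmt := by
  intro N κ hsym hκ hs hpin
  obtain ⟨O, l, hO1, hO2, hA⟩ := spec (Matrix.of N) (by
    ext i j
    simp [hsym j i])
  have hconj : ∀ (m m' : Fin 3 → ℝ), (O * diagonal m * Oᵀ) * (O * diagonal m' * Oᵀ) =
      O * diagonal (fun i => m i * m' i) * Oᵀ := by
    intro m m'
    calc (O * diagonal m * Oᵀ) * (O * diagonal m' * Oᵀ)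
        = O * diagonal m * (Oᵀ * O) * diagonal m' * Oᵀ := by simp only [Matrix.mul_assoc]
      _ = O * (diagonal m * diagonal m') * Oᵀ := by
          rw [hO1, Matrix.mul_one, Matrix.mul_assoc O]
      _ = _ := by rw [diagonal_mul_diagonal]
  have htr : ∀ m : Fin 3 → ℝ, (O * diagonal m * Oᵀ).trace = ∑ i, m i := by
    intro m
    rw [Matrix.trace_mul_comm, ← Matrix.mul_assoc, hO1, Matrix.one_mul, trace_diagonal]
  have hT : ∑ i, N i i = ∑ i, l i := by
    have := htr l
    rw [← hA] at this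
    simpa [Matrix.trace] using this
  have hQ : ∑ i, ∑ j, N i j ^ 2 = ∑ i, l i ^ 2 := by
    have h := htr (fun i => l i * l i)
    rw [← hconj, ← hA, tr2] at h
    calc ∑ i, ∑ j, N i j ^ 2 = ∑ i, ∑ j, N i j * N j i := by
          refine Finset.sum_congr rfl fun i _ => Finset.sum_congr rfl fun j _ => ?_
          rw [hsym j i, sq]
      _ = ∑ i, l i * l i := h
      _ = _ := Finset.sum_congr rfl fun i _ => (sq (l i)).symm
  set c : ℝ := (1 / 3) * ∑ i, N i i with hc
  have hA0 : (Matrix.of fun i j => N i j - if i = j then c else 0) =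
      O * diagonal (fun i => l i - c) * Oᵀ := by
    have h1 : (Matrix.of fun i j => N i j - if i = j then c else 0) = Matrix.of N - c • 1 := by
      ext i j
      simp [Matrix.one_apply]
    have h2 : diagonal (fun i => l i - c) = diagonal l - c • (1 : Matrix (Fin 3) (Fin 3) ℝ) := by
      ext i j
      by_cases h : i = j
      · subst h; simp
      · simp [h]
    rw [h1, h2, Matrix.mul_sub, Matrix.sub_mul, ← hA, Matrix.mul_smul, Matrix.smul_mul,
      Matrix.mul_one, hO2]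
  have hC : (∑ i, ∑ j, ∑ k, (N i j - if i = j then c else 0) * (N j k - if j = k then c else 0) *
      (N k i - if k = i then c else 0)) = ∑ i, (l i - c) ^ 3 := by
    have h := htr (fun i => (l i - c) * (l i - c) * (l i - c))
    rw [← hconj, ← hconj, ← hA0, tr3] at h
    calc _ = _ := h
      _ = _ := Finset.sum_congr rfl fun i _ => by ring
  have hP : ∀ j, κ * ∑ i, N i i ≤ l j := by
    intro j
    have h1 : ∑ i, (O i j) ^ 2 = 1 := by
      have h := congrFun (congrFun hO1 j) j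
      rw [Matrix.mul_apply] at h
      simpa [sq] using h
    have h2 : ∑ i, ∑ k, O i j * O k j * N i k = l j := by
      have h : Oᵀ * Matrix.of N * O = diagonal l := by
        rw [hA]
        calc Oᵀ * (O * diagonal l * Oᵀ) * O = (Oᵀ * O) * diagonal l * (Oᵀ * O) := by
              simp only [Matrix.mul_assoc]
          _ = _ := by rw [hO1, Matrix.one_mul, Matrix.mul_one]
      have h' := congrFun (congrFun h j) j
      rw [diagonal_apply_eq, Matrix.mul_apply] at h'
      rw [← h', Finset.sum_comm]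
      refine Finset.sum_congr rfl fun k _ => ?_
      rw [Matrix.mul_apply, Finset.sum_mul]
      refine Finset.sum_congr rfl fun i _ => ?_
      simp only [Matrix.transpose_apply, Matrix.of_apply]
      ring
    rw [← h2]
    exact hpin _ h1
  rw [hC, hQ]
  have hcl : c = (1 / 3) * ∑ i, l i := by rw [hc, hT]
  rw [hcl, hT]
  rw [hT] at hs
  simp only [hT] at hP
  simp only [Fin.sum_univ_three] at hs hP ⊢
  exact real_part (l 0) (l 1) (l 2) κ hκ hs (hP 0) (hP 1) (hP 2)

end Pool.Agent.Helper83.RF
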